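import Pool.Agent.Helper48.FB.Defs
import Pool.Agent.Helper42.WR.WindowBound

/-!
# FB-B9b, FB-B9c: numerics of the windows
-/

set_option autoImplicit false
set_option linter.unusedVariables false

namespace Pool.Agent.Helper57.FB

open Finset Filter
open Pool.Agent.Helper53.WR
open Pool.Agent.Helper48.FB

/-- FB-B9b (numerics of the windows: middle range). -/
theorem mid_of {a th F q : ℕ} (T A : Finset ℕ) (hF : ∀ n, repF T n ≤ F) (hth : th ≤ 2 * a)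
    (hq1 : 2 ^ a < q)
    (hm : ∀ y h W, (∀ z, (win T z (2 ^ th)).card ≤ W) →
        (win A y h).card ≤ 4096 * ((h / q ^ 4 + 2) * 2 ^ (2 * a - th + 7) * W))
    (y h : ℕ) (h1 : 2 ^ (4 * a + 4) ≤ h) (h2 : h ≤ 2 ^ (4 * a + th + 13)) :
    (win A y h).card ^ 2 * 2 ^ (4 * a + th) ≤ 2 ^ 57 * h ^ 2 * F := by
  set W : ℕ := Nat.sqrt (2 * 2 ^ th * F) with hWdef
  have hW : ∀ z, (win T z (2 ^ th)).card ≤ W := by
    intro z
    rw [hWdef, Nat.le_sqrt']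
    exact Pool.Agent.Helper42.WR.window_bound T F (2 ^ th) hF z
  have hW2 : W ^ 2 ≤ 2 * 2 ^ th * F := Nat.sqrt_le' _
  have h3 := hm y h W hW
  have hq4 : 2 ^ (4 * a) ≤ q ^ 4 := by
    calc 2 ^ (4 * a) = (2 ^ a) ^ 4 := by rw [← pow_mul, mul_comm]
      _ ≤ q ^ 4 := Nat.pow_le_pow_left hq1.le 4
  have hpos : 0 < 2 ^ (4 * a) := by positivity
  -- `(h / q ^ 4 + 2) * 8 * 2 ^ (4 a) ≤ 9 h`
  have h4 : (h / q ^ 4 + 2) * 2 ^ (4 * a) ≤ 2 * h := by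
    have h5 : h / q ^ 4 * 2 ^ (4 * a) ≤ h :=
      (Nat.mul_le_mul_left _ hq4).trans (Nat.div_mul_le_self _ _)
    have h6 : 2 * 2 ^ (4 * a) ≤ h := by
      have : 2 ^ (4 * a + 4) = 16 * 2 ^ (4 * a) := by rw [pow_add]; ring
      omega
    rw [add_mul]
    omega
  have h7 : 2 ^ (2 * a - th + 7) * 2 ^ th = 2 ^ (2 * a + 7) := by
    rw [← pow_add]
    congr 1
    omega
  set X := h / q ^ 4 + 2
  set E := 2 ^ (2 * a - th + 7)
  have h8 : (win A y h).card ^ 2 ≤ (4096 * (X * E * W)) ^ 2 := Nat.pow_le_pow_left h3 2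
  have h9 : (win A y h).card ^ 2 * 2 ^ (4 * a + th) ≤
      (4096 * (X * E * W)) ^ 2 * 2 ^ (4 * a + th) := Nat.mul_le_mul_right _ h8
  refine h9.trans ?_
  have h10 : (4096 * (X * E * W)) ^ 2 * 2 ^ (4 * a + th) =
      2 ^ 24 * X ^ 2 * E ^ 2 * W ^ 2 * (2 ^ (4 * a) * 2 ^ th) := by
    rw [pow_add]; ring
  rw [h10]
  calc 2 ^ 24 * X ^ 2 * E ^ 2 * W ^ 2 * (2 ^ (4 * a) * 2 ^ th)
      ≤ 2 ^ 24 * X ^ 2 * E ^ 2 * (2 * 2 ^ th * F) * (2 ^ (4 * a) * 2 ^ th) := by gcongr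
    _ = 2 ^ 25 * X ^ 2 * (E * 2 ^ th) ^ 2 * 2 ^ (4 * a) * F := by ring
    _ = 2 ^ 39 * (X * 2 ^ (4 * a)) ^ 2 * F := by
        rw [h7]
        have : (2 ^ (2 * a + 7)) ^ 2 = 2 ^ 14 * 2 ^ (4 * a) := by
          rw [← pow_mul, ← pow_add]; congr 1; ring
        rw [this]; ring
    _ ≤ 2 ^ 39 * (2 * h) ^ 2 * F := by gcongr
    _ = 2 ^ 41 * h ^ 2 * F := by ring
    _ ≤ 2 ^ 57 * h ^ 2 * F := by
        have : (2:ℕ) ^ 41 ≤ 2 ^ 57 := by norm_num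
        gcongr
        
/-- FB-B9c (numerics of the windows: far above the gap). -/
theorem far_of {a u e w q : ℕ} (T A : Finset ℕ) (hw : w ≤ 20 * e) (e300 : 300 ≤ e)
    (eu : 100 * e ≤ u) (ua : 100 * u ≤ a) (hT : WinLe T (2 ^ w))
    (hq1 : 2 ^ a < q) (hq2 : q ≤ 2 ^ (a + 1))
    (hm : ∀ y h W, (∀ z, y / q ^ 4 ≤ z + 514 + 2 * 2 ^ (8 * u + 64 * e) →
        (win T z (h / q ^ 4 + 2)).card ≤ W) → (win A y h).card ≤ 4096 * (9 * q ^ 2 * W))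
    (y : ℕ) (hy : 2 ^ (4 * a + (8 * u + 64 * e) + 127 * e) ≤ y) :
    (win A y (2 ^ (4 * a + (8 * u + 64 * e) + 12))).card ≤ 2 ^ (2 * a + 4 * u - 10 * e) := by
  have hq4l : 2 ^ (4 * a) ≤ q ^ 4 := by
    calc 2 ^ (4 * a) = (2 ^ a) ^ 4 := by rw [← pow_mul, mul_comm]
      _ ≤ q ^ 4 := Nat.pow_le_pow_left hq1.le 4
  have hq4u : q ^ 4 ≤ 2 ^ (4 * a + 4) := by
    calc q ^ 4 ≤ (2 ^ (a + 1)) ^ 4 := Nat.pow_le_pow_left hq2 4
      _ = 2 ^ (4 * a + 4) := by rw [← pow_mul]; congr 1; ring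
  have hq4pos : 0 < q ^ 4 := lt_of_lt_of_le (by positivity) hq4l
  -- the length of the windows of `T`
  set th := 8 * u + 64 * e with hth
  have hlen : 2 ^ (4 * a + th + 12) / q ^ 4 + 2 ≤ 2 ^ (th + 13) := by
    have h1 : 2 ^ (4 * a + th + 12) / q ^ 4 ≤ 2 ^ (th + 12) := by
      apply Nat.div_le_of_le_mul
      calc 2 ^ (4 * a + th + 12) = 2 ^ (4 * a) * 2 ^ (th + 12) := by
            rw [← pow_add, add_assoc]
        _ ≤ q ^ 4 * 2 ^ (th + 12) := Nat.mul_le_mul_right _ hq4l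
    have h2 : 2 ^ (th + 13) = 2 * 2 ^ (th + 12) := by rw [pow_succ]; ring
    have h3 : 2 ^ 1 ≤ 2 ^ (th + 12) := Nat.pow_le_pow_right (by norm_num) (by omega)
    omega
  have hzl : 2 ^ (th + 127 * e - 4) ≤ y / q ^ 4 := by
    rw [Nat.le_div_iff_mul_le hq4pos]
    calc 2 ^ (th + 127 * e - 4) * q ^ 4 ≤ 2 ^ (th + 127 * e - 4) * 2 ^ (4 * a + 4) :=
          Nat.mul_le_mul_left _ hq4u
      _ = 2 ^ (4 * a + th + 127 * e) := by rw [← pow_add]; congr 1; omega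
      _ ≤ y := hy
  have hmain := hm y (2 ^ (4 * a + th + 12)) (2 ^ (20 * e + (4 * u - 31 * e + 17))) (by
    intro z hz
    have hz1 : 2 ^ (th + 127 * e - 5) ≤ z := by
      have h1 : 2 ^ (th + 127 * e - 4) = 2 * 2 ^ (th + 127 * e - 5) := by
        rw [← pow_succ']; congr 1; omega
      have h2 : 514 + 2 * 2 ^ th ≤ 2 ^ (th + 127 * e - 5) := by
        have h3 : 2 ^ (th + 10) ≤ 2 ^ (th + 127 * e - 5) :=
          Nat.pow_le_pow_right (by norm_num) (by omega)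
        have h4 : 2 ^ (th + 10) = 1024 * 2 ^ th := by rw [pow_add]; ring
        have h5 : 1 ≤ 2 ^ th := Nat.one_le_two_pow
        omega
      omega
    have hlog : th + 127 * e - 5 ≤ Nat.log 2 z := by
      apply Nat.le_log_of_pow_le (by norm_num) hz1
    have hl2 : 4 * u + 95 * e - 3 ≤ Nat.log 2 z / 2 := by omega
    set L := Nat.log 2 z / 2 with hL
    have hwin := hT z (2 ^ (4 * a + th + 12) / q ^ 4 + 2)
    set c := (win T z (2 ^ (4 * a + th + 12) / q ^ 4 + 2)).card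
    have h6 : c * 2 ^ L ≤ 2 ^ w * (2 ^ (th + 13) + 2 ^ L) :=
      hwin.trans (Nat.mul_le_mul_left _ (Nat.add_le_add_right hlen _))
    have h7 : 2 ^ (th + 13) ≤ 2 ^ (4 * u - 31 * e + 16) * 2 ^ L := by
      rw [← pow_add]
      exact Nat.pow_le_pow_right (by norm_num) (by omega)
    have h8 : c * 2 ^ L ≤ (2 ^ w * (2 ^ (4 * u - 31 * e + 16) + 1)) * 2 ^ L := by
      calc c * 2 ^ L ≤ 2 ^ w * (2 ^ (th + 13) + 2 ^ L) := h6
        _ ≤ 2 ^ w * (2 ^ (4 * u - 31 * e + 16) * 2 ^ L + 2 ^ L) := by gcongr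
        _ = (2 ^ w * (2 ^ (4 * u - 31 * e + 16) + 1)) * 2 ^ L := by ring
    have h9 : c ≤ 2 ^ w * (2 ^ (4 * u - 31 * e + 16) + 1) :=
      Nat.le_of_mul_le_mul_right h8 (by positivity)
    have h10 : 2 ^ (4 * u - 31 * e + 16) + 1 ≤ 2 ^ (4 * u - 31 * e + 17) := by
      have h11 : 2 ^ (4 * u - 31 * e + 17) = 2 * 2 ^ (4 * u - 31 * e + 16) := by
        rw [pow_succ]; ring
      have h12 : 1 ≤ 2 ^ (4 * u - 31 * e + 16) := Nat.one_le_two_pow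
      omega
    calc c ≤ 2 ^ w * (2 ^ (4 * u - 31 * e + 16) + 1) := h9
      _ ≤ 2 ^ (20 * e) * 2 ^ (4 * u - 31 * e + 17) :=
          Nat.mul_le_mul (Nat.pow_le_pow_right (by norm_num) hw) h10
      _ = 2 ^ (20 * e + (4 * u - 31 * e + 17)) := (pow_add _ _ _).symm)
  refine hmain.trans ?_
  have hq2' : q ^ 2 ≤ 2 ^ (2 * a + 2) := by
    calc q ^ 2 ≤ (2 ^ (a + 1)) ^ 2 := Nat.pow_le_pow_left hq2 2
      _ = 2 ^ (2 * a + 2) := by rw [← pow_mul]; congr 1; ring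
  calc 4096 * (9 * q ^ 2 * 2 ^ (20 * e + (4 * u - 31 * e + 17)))
      ≤ 2 ^ 12 * (2 ^ 4 * 2 ^ (2 * a + 2) * 2 ^ (20 * e + (4 * u - 31 * e + 17))) := by
        have : (9:ℕ) ≤ 2 ^ 4 := by norm_num
        have h12 : (4096:ℕ) = 2 ^ 12 := by norm_num
        rw [h12]
        gcongr
    _ = 2 ^ (12 + (4 + (2 * a + 2) + (20 * e + (4 * u - 31 * e + 17)))) := by
        rw [← pow_add, ← pow_add, ← pow_add]
    _ ≤ 2 ^ (2 * a + 4 * u - 10 * e) := Nat.pow_le_pow_right (by norm_num) (by omega)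

end Pool.Agent.Helper57.FB
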